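import Pool.Agent.D0H34.KC.Stm3

/-! Project KC, module SW: a transposition in the Galois group. The last steps follow `Pool/Agent/N693/CF/SWP.lean` and
`Pool/Agent/N492/CF/INR.lean` (starting library). -/

set_option autoImplicit false
set_option linter.all false

open Polynomial NumberField
open scoped Classical

namespace Pool.Agent.D0H22.KC

/-- the roots modulo the prime -/
theorem pairs {K : Type} [Field K] (n : ℕ) (hn : 3 ≤ n) (h2 : ((n - 2 : ℕ) : K) ≠ 0) (β : Fin n → K)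
    (h : ∏ k, (X - C (β k)) = X ^ n - X ^ 2) :
    ∃ i j, i ≠ j ∧ β i = 0 ∧ β j = 0 ∧ (∀ k, k ≠ i → k ≠ j → β k ≠ 0) ∧
      ∀ k l, k ≠ i → k ≠ j → l ≠ i → l ≠ j → β k = β l → k = l := by
  have h0 : ∃ i, β i = 0 := by
    have h1 := congrArg (eval 0) h
    rw [eval_prod] at h1
    simp only [eval_sub, eval_X, eval_C, eval_pow, zero_sub] at h1
    rw [zero_pow (by omega), zero_pow (by norm_num), sub_zero, Finset.prod_eq_zero_iff] at h1
    obtain ⟨i, -, hi⟩ := h1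
    exact ⟨i, neg_eq_zero.1 hi⟩
  obtain ⟨i, hi⟩ := h0
  have h3 : ∏ k ∈ Finset.univ.erase i, (X - C (β k)) = X ^ (n - 1) - X := by
    rw [← Finset.mul_prod_erase Finset.univ _ (Finset.mem_univ i), hi, C_0, sub_zero] at h
    refine mul_left_cancel₀ (X_ne_zero : (X : K[X]) ≠ 0) ?_
    rw [h, mul_sub, ← pow_succ', ← sq]
    have e : n - 1 + 1 = n := by omega
    rw [e]
  have h4 : ∃ j ∈ Finset.univ.erase i, β j = 0 := by
    have h1 := congrArg (eval 0) h3
    rw [eval_prod] at h1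
    simp only [eval_sub, eval_X, eval_C, eval_pow, zero_sub, sub_zero] at h1
    rw [zero_pow (by omega), Finset.prod_eq_zero_iff] at h1
    obtain ⟨j, hj, hj'⟩ := h1
    exact ⟨j, hj, neg_eq_zero.1 hj'⟩
  obtain ⟨j, hj, hj0⟩ := h4
  have h5 : ∏ k ∈ (Finset.univ.erase i).erase j, (X - C (β k)) = X ^ (n - 2) - C 1 := by
    rw [← Finset.mul_prod_erase (Finset.univ.erase i) _ hj, hj0, C_0, sub_zero] at h3
    refine mul_left_cancel₀ (X_ne_zero : (X : K[X]) ≠ 0) ?_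
    rw [h3, mul_sub, ← pow_succ', C_1, mul_one]
    have e : n - 2 + 1 = n - 1 := by omega
    rw [e]
  have hmem : ∀ k, k ≠ i → k ≠ j → k ∈ (Finset.univ.erase i).erase j := fun k h1 h2 =>
    Finset.mem_erase.2 ⟨h2, Finset.mem_erase.2 ⟨h1, Finset.mem_univ k⟩⟩
  refine ⟨i, j, (Finset.ne_of_mem_erase hj).symm, hi, hj0, fun k hki hkj hk => ?_, ?_⟩
  · have h1 := congrArg (eval 0) h5
    rw [eval_prod] at h1
    simp only [eval_sub, eval_X, eval_C, eval_pow, zero_sub] at h1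
    rw [zero_pow (by omega), zero_sub, Finset.prod_eq_zero (hmem k hki hkj) (by rw [hk, neg_zero])] at h1
    exact one_ne_zero (neg_eq_zero.1 h1.symm)
  · have h6 : (X ^ (n - 2) - C (1 : K)).Separable := separable_X_pow_sub_C 1 h2 one_ne_zero
    rw [← h5, separable_prod_X_sub_C_iff'] at h6
    intro k l h7 h8 h9 h10 h11
    exact h6 k (hmem k h7 h8) l (hmem l h9 h10) h11

/-- `p ∈ 𝔓 ^ 2` -/
theorem sq_mem {S : Type} [CommRing S] (𝔓 : Ideal S) (p : ℕ) (c : ℤ) (hp : p.Prime) (h1 : (p : S) ∈ 𝔓)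
    (h2 : ((c : ℤ) : S) ∈ 𝔓 ^ 2) (h3 : ¬ (p : ℤ) ^ 2 ∣ c) (h4 : (p : ℤ) ∣ c) : (p : S) ∈ 𝔓 ^ 2 := by
  obtain ⟨u, rfl⟩ := h4
  have h5 : ¬ (p : ℤ) ∣ u := by
    rintro ⟨w, rfl⟩
    exact h3 ⟨w, by ring⟩
  have hpi : Prime (p : ℤ) := Nat.prime_iff_prime_int.1 hp
  obtain ⟨a, b, hab⟩ : IsCoprime (p : ℤ) u := (Prime.coprime_iff_not_dvd hpi).2 h5
  have h6 : (p : S) = ((a : ℤ) : S) * ((p : S) * (p : S)) + ((b : ℤ) : S) * (((p * u : ℤ)) : S) := by
    have h7 : (p : ℤ) = a * (p * p) + b * (p * u) := by linear_combination -(p : ℤ) * hab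
    have h8 := congrArg (Int.cast : ℤ → S) h7
    push_cast at h8 ⊢
    exact h8
  rw [h6]
  refine Ideal.add_mem _ (Ideal.mul_mem_left _ _ ?_) (Ideal.mul_mem_left _ _ h2)
  rw [sq]
  exact Ideal.mul_mem_mul h1 h1

/-- a nontrivial element of the inertia group -/
theorem inr {N : Type} [Field N] [NumberField N] [IsGalois ℚ N] (𝔓 : Ideal (𝓞 N)) (hP : 𝔓.IsPrime) (p : ℕ)
    (hp : p.Prime) (h1 : (p : 𝓞 N) ∈ 𝔓 ^ 2) :
    ∃ σ : N ≃ₐ[ℚ] N, σ ≠ 1 ∧ ∀ y : 𝓞 N, ∃ z ∈ 𝔓, ((z : 𝓞 N) : N) = σ (y : N) - (y : N) := by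
  obtain ⟨𝔭, h𝔭⟩ : ∃ 𝔭 : Ideal (𝓞 ℚ), 𝔭 = 𝔓.comap (algebraMap (𝓞 ℚ) (𝓞 N)) := ⟨_, rfl⟩
  have hpP : (p : 𝓞 N) ∈ 𝔓 := Ideal.pow_le_self two_ne_zero h1
  have hpp : (p : 𝓞 ℚ) ∈ 𝔭 := by
    rw [h𝔭, Ideal.mem_comap, map_natCast]
    exact hpP
  have hp0 : 𝔭 ≠ ⊥ := by
    intro h
    rw [h, Ideal.mem_bot] at hpp
    exact hp.ne_zero (by exact_mod_cast hpp)
  have hP0 : 𝔓 ≠ ⊥ := by
    intro h
    rw [h, Ideal.mem_bot] at hpP
    exact hp.ne_zero (by exact_mod_cast hpP)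
  have hpr : 𝔭.IsPrime := by
    rw [h𝔭]
    exact Ideal.comap_isPrime _ _
  have hL : 𝔓.LiesOver 𝔭 := ⟨h𝔭⟩
  have hle : 𝔭.map (algebraMap (𝓞 ℚ) (𝓞 N)) ≤ 𝔓 ^ 2 := by
    rw [Ideal.map_le_iff_le_comap]
    intro y hy
    obtain ⟨m, rfl⟩ : ∃ m : ℤ, (m : 𝓞 ℚ) = y := by
      have h2 := map_intCast Rat.ringOfIntegersEquiv.symm (Rat.ringOfIntegersEquiv y)
      rw [Int.cast_id, RingEquiv.symm_apply_apply] at h2
      exact ⟨_, h2.symm⟩
    rw [h𝔭, Ideal.mem_comap, map_intCast] at hy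
    rw [Ideal.mem_comap, map_intCast]
    have h3 : (p : ℤ) ∣ m := by
      by_contra h4
      have hpi : Prime (p : ℤ) := Nat.prime_iff_prime_int.1 hp
      obtain ⟨a, b, hab⟩ : IsCoprime (p : ℤ) m := (Prime.coprime_iff_not_dvd hpi).2 h4
      apply hP.ne_top
      rw [Ideal.eq_top_iff_one]
      have h5 : (1 : 𝓞 N) = ((a : ℤ) : 𝓞 N) * (p : 𝓞 N) + ((b : ℤ) : 𝓞 N) * ((m : ℤ) : 𝓞 N) := by
        have h6 := congrArg (Int.cast : ℤ → 𝓞 N) hab
        push_cast at h6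
        exact h6.symm
      rw [h5]
      exact Ideal.add_mem _ (Ideal.mul_mem_left _ _ hpP) (Ideal.mul_mem_left _ _ hy)
    obtain ⟨w, rfl⟩ := h3
    push_cast
    exact Ideal.mul_mem_right _ _ h1
  have h2 : 𝔭.ramificationIdx' 𝔓 ≠ 1 :=
    (Ideal.ramificationIdx'_ne_one_iff (hle.trans (Ideal.pow_le_self two_ne_zero))).2 hle
  rw [Ideal.ramificationIdx'_eq_ramificationIdx 𝔭 𝔓 hp0] at h2
  have h3 := Ideal.card_inertia_eq_ramificationIdxIn (G := N ≃ₐ[ℚ] N) 𝔭 𝔓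
  rw [Ideal.ramificationIdxIn_eq_ramificationIdx 𝔭 𝔓 (N ≃ₐ[ℚ] N)] at h3
  have h4 : 𝔓.inertia (N ≃ₐ[ℚ] N) ≠ ⊥ := by
    intro h
    apply h2
    rw [← h3, h]
    exact Subgroup.card_bot
  obtain ⟨⟨σ, hσ⟩, hσ1⟩ := Subgroup.ne_bot_iff_exists_ne_one.1 h4
  refine ⟨σ, fun h => hσ1 (Subtype.ext h), fun y => ⟨σ • y - y, hσ y, ?_⟩⟩
  rfl

/-- the roots in a splitting field, as a family -/
theorem roots_fam {F N : Type} [Field F] [CharZero F] [Field N] [Algebra F N] (p : F[X]) (n : ℕ)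
    (hm : p.Monic) (hd : p.natDegree = n) (hirr : Irreducible p)
    (hs : (p.map (algebraMap F N)).Splits) :
    ∃ α : Fin n → N, Function.Injective α ∧ p.map (algebraMap F N) = ∏ i, (X - C (α i)) := by
  have hmon : (p.map (algebraMap F N)).Monic := hm.map _
  have hnd : (p.map (algebraMap F N)).roots.Nodup := nodup_roots (hirr.separable.map)
  obtain ⟨S, hS⟩ : ∃ S : Finset N, S = (p.map (algebraMap F N)).roots.toFinset := ⟨_, rfl⟩
  have hSv : S.val = (p.map (algebraMap F N)).roots := by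
    rw [hS, Multiset.toFinset_val, Multiset.dedup_eq_self.2 hnd]
  have hcard : S.card = n := by
    rw [Finset.card_def, hSv, ← hs.natDegree_eq_card_roots, natDegree_map, hd]
  let e : Fin n ≃ S := (S.equivFinOfCardEq hcard).symm
  refine ⟨fun k => (e k : N), fun a b h => e.injective (Subtype.ext h), ?_⟩
  have h1 := hs.eq_prod_roots_of_monic hmon
  rw [← hSv] at h1
  have h2 : (S.val.map (fun x => X - C x)).prod = ∏ a ∈ S, (X - C a) := rfl
  rw [h1, h2, ← Finset.prod_coe_sort S (fun a => (X - C a : N[X]))]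
  exact (Equiv.prod_comp e (fun a : S => (X - C (a : N) : N[X]))).symm

theorem alg0 (inst : Algebra ℚ (AlgebraicClosure ℚ)) : @Algebra.IsAlgebraic ℚ (AlgebraicClosure ℚ) _ _ inst := by
  have h : inst = AlgebraicClosure.instAlgebra ℚ := Subsingleton.elim _ _
  subst h
  exact AlgebraicClosure.isAlgebraic ℚ

theorem alg1 : Algebra.IsAlgebraic ℚ (AlgebraicClosure ℚ) := alg0 _

theorem nor1 : Normal ℚ (AlgebraicClosure ℚ) := by
  have h := alg1
  exact { splits' := fun x => IsAlgClosed.splits _ }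

theorem int1 : Algebra.IsIntegral ℚ (AlgebraicClosure ℚ) := by
  have h := alg1
  infer_instance

theorem t_SW : Pool.Agent.D0H34.KC.S_SW := by
  intro n p f R hn hp hnp hmon hdeg hirrZ hf hf0 θ hθ
  have hnA := nor1
  have hiA := int1
  obtain ⟨fQ, hfQ⟩ : ∃ fQ : ℚ[X], fQ = f.map (algebraMap ℤ ℚ) := ⟨_, rfl⟩
  have hmonF : fQ.Monic := by rw [hfQ]; exact hmon.map _
  have hdegF : fQ.natDegree = n := by rw [hfQ, hmon.natDegree_map, hdeg]
  have hirr : Irreducible fQ := by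
    rw [hfQ]
    exact (Monic.irreducible_iff_irreducible_map_fraction_map hmon).1 hirrZ
  have hsplit : (fQ.map (algebraMap ℚ (AlgebraicClosure ℚ))).Splits :=
    IsAlgClosed.splits _
  obtain ⟨N, hN⟩ : ∃ N : IntermediateField ℚ (AlgebraicClosure ℚ),
    N = IntermediateField.adjoin ℚ (fQ.rootSet (AlgebraicClosure ℚ)) := ⟨_, rfl⟩
  have hsf : fQ.IsSplittingField ℚ N := by
    rw [hN]
    exact IntermediateField.adjoin_rootSet_isSplittingField hsplit
  have hnor : Normal ℚ N := Normal.of_isSplittingField fQ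
  have hfd : FiniteDimensional ℚ N := IsSplittingField.finiteDimensional N fQ
  have hnf : NumberField N := NumberField.of_module_finite ℚ N
  have hgal : IsGalois ℚ N := {}
  obtain ⟨α, hαi, hαp⟩ := roots_fam (N := N) fQ n hmonF hdegF hirr hsf.splits'
  have hroot : ∀ z : N, aeval z fQ = 0 ↔ ∃ k, z = α k := by
    intro z
    rw [← eval_map_algebraMap, hαp, eval_prod, Finset.prod_eq_zero_iff]
    simp only [Finset.mem_univ, true_and, eval_sub, eval_X, eval_C, sub_eq_zero]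
  -- integrality
  have hint : ∀ k, IsIntegral ℤ (α k) := by
    intro k
    refine ⟨f, hmon, ?_⟩
    have h2 := (hroot (α k)).2 ⟨k, rfl⟩
    rw [hfQ, aeval_map_algebraMap] at h2
    exact h2
  obtain ⟨αO, hαO⟩ : ∃ αO : Fin n → 𝓞 N, ∀ k, ((αO k : 𝓞 N) : N) = α k :=
    ⟨fun k => ⟨α k, hint k⟩, fun k => rfl⟩
  have hinjO : Function.Injective (algebraMap (𝓞 N) N) := RingOfIntegers.coe_injective
  have hfO : f.map (algebraMap ℤ (𝓞 N)) = ∏ i, (X - C (αO i)) := by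
    apply Polynomial.map_injective (algebraMap (𝓞 N) N) hinjO
    rw [Polynomial.map_map, Polynomial.map_prod]
    have e1 : (algebraMap (𝓞 N) N).comp (algebraMap ℤ (𝓞 N)) =
        (algebraMap ℚ N).comp (algebraMap ℤ ℚ) := RingHom.ext_int _ _
    rw [e1, ← Polynomial.map_map, ← hfQ, hαp]
    refine Finset.prod_congr rfl fun i _ => ?_
    rw [Polynomial.map_sub, map_X, map_C]
    congr 2
    exact (hαO i).symm
  -- the prime ideal
  have hpi : Prime (p : ℤ) := Nat.prime_iff_prime_int.1 hp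
  have hpr : (Ideal.span {(p : ℤ)}).IsPrime := (Ideal.span_singleton_prime hpi.ne_zero).2 hpi
  have hker : RingHom.ker (algebraMap ℤ (𝓞 N)) ≤ Ideal.span {(p : ℤ)} := by
    rw [(RingHom.injective_iff_ker_eq_bot _).1 (FaithfulSMul.algebraMap_injective ℤ (𝓞 N))]
    exact bot_le
  obtain ⟨𝔓, h𝔓p, h𝔓c⟩ :=
    Ideal.exists_ideal_over_prime_of_isIntegral_of_isDomain (S := 𝓞 N) (Ideal.span {(p : ℤ)}) hker
  have hpP : (p : 𝓞 N) ∈ 𝔓 := by
    have h1 : (p : ℤ) ∈ 𝔓.comap (algebraMap ℤ (𝓞 N)) := by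
      rw [h𝔓c]
      exact Ideal.mem_span_singleton_self _
    rw [Ideal.mem_comap] at h1
    simpa using h1
  -- reduction modulo the prime
  have hdom : IsDomain (𝓞 N ⧸ 𝔓) := Ideal.Quotient.isDomain 𝔓
  obtain ⟨κ, hκ⟩ : ∃ κ : 𝓞 N →+* FractionRing (𝓞 N ⧸ 𝔓),
      ∀ a, κ a = 0 ↔ a ∈ 𝔓 := by
    refine ⟨(algebraMap (𝓞 N ⧸ 𝔓) (FractionRing (𝓞 N ⧸ 𝔓))).comp (Ideal.Quotient.mk 𝔓),
      fun a => ?_⟩
    rw [RingHom.comp_apply, map_eq_zero_iff _ (IsFractionRing.injective _ _),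
      Ideal.Quotient.eq_zero_iff_mem]
  have hκp : ((p : ℕ) : FractionRing (𝓞 N ⧸ 𝔓)) = 0 := by
    have h1 := (hκ (p : 𝓞 N)).2 hpP
    rwa [map_natCast] at h1
  have hprod : ∏ k, (X - C (κ (αO k))) = (X ^ n - X ^ 2 : (FractionRing (𝓞 N ⧸ 𝔓))[X]) := by
    have h1 : (f.map (algebraMap ℤ (𝓞 N))).map κ = ∏ k, (X - C (κ (αO k))) := by
      rw [hfO, Polynomial.map_prod]
      refine Finset.prod_congr rfl fun k _ => ?_
      rw [Polynomial.map_sub, map_X, map_C]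
    rw [← h1, hf]
    simp only [Polynomial.map_add, Polynomial.map_sub, Polynomial.map_mul, Polynomial.map_pow, map_X, map_C]
    have h2 : κ ((algebraMap ℤ (𝓞 N)) (p : ℤ)) = 0 := by
      have h3 : (algebraMap ℤ (𝓞 N)) (p : ℤ) = (p : 𝓞 N) := by simp
      rw [h3, map_natCast, hκp]
    rw [h2, C_0, zero_mul, add_zero]
  have hn2 : ((n - 2 : ℕ) : FractionRing (𝓞 N ⧸ 𝔓)) ≠ 0 := by
    intro h
    have h1 : ¬ (p : ℤ) ∣ ((n - 2 : ℕ) : ℤ) := by
      intro h2
      have h3 : p ∣ n - 2 := by exact_mod_cast h2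
      have := Nat.le_of_dvd (by omega) h3
      omega
    obtain ⟨a, b, hab⟩ : IsCoprime (p : ℤ) ((n - 2 : ℕ) : ℤ) := (Prime.coprime_iff_not_dvd hpi).2 h1
    have h4 := congrArg (Int.cast : ℤ → FractionRing (𝓞 N ⧸ 𝔓)) hab
    rw [Int.cast_add, Int.cast_mul, Int.cast_mul, Int.cast_natCast, Int.cast_natCast, hκp, h, mul_zero, mul_zero,
      add_zero, Int.cast_one] at h4
    exact zero_ne_one h4
  obtain ⟨i, j, hij, hi0, hj0, hk0, hkl⟩ := pairs n hn hn2 (fun k => κ (αO k)) hprod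
  -- `p ∈ 𝔓 ^ 2`
  have hc2 : ((f.eval 0 : ℤ) : 𝓞 N) ∈ 𝔓 ^ 2 := by
    have h1 : ((f.eval 0 : ℤ) : 𝓞 N) = ∏ k, (-(αO k)) := by
      have h2 := congrArg (eval 0) hfO
      rw [eval_prod] at h2
      simp only [eval_sub, eval_X, eval_C, zero_sub] at h2
      rw [← h2]
      have h4 : eval (0 : 𝓞 N) (f.map (algebraMap ℤ (𝓞 N))) = (algebraMap ℤ (𝓞 N)) (f.eval 0) := by
        rw [← map_zero (algebraMap ℤ (𝓞 N)), eval_map_apply]
      rw [h4]
      simp
    rw [h1, ← Finset.mul_prod_erase Finset.univ _ (Finset.mem_univ i),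
      ← Finset.mul_prod_erase (Finset.univ.erase i) _ (Finset.mem_erase.2 ⟨hij.symm, Finset.mem_univ j⟩), ← mul_assoc, sq]
    refine Ideal.mul_mem_right _ _ (Ideal.mul_mem_mul ?_ ?_)
    · exact neg_mem ((hκ _).1 hi0)
    · exact neg_mem ((hκ _).1 hj0)
  have hdvd : (p : ℤ) ∣ f.eval 0 := by
    rw [hf]
    simp only [eval_add, eval_sub, eval_pow, eval_X, eval_mul, eval_C]
    rw [zero_pow (by omega), zero_pow (by norm_num)]
    exact ⟨R.eval 0, by ring⟩
  have hp2 : (p : 𝓞 N) ∈ 𝔓 ^ 2 := sq_mem 𝔓 p (f.eval 0) hp hpP hc2 hf0 hdvd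
  obtain ⟨s, hs1, hs⟩ := inr 𝔓 h𝔓p p hp hp2
  -- the permutation of the roots
  have hperm : ∀ k, ∃ l, s (α k) = α l := by
    intro k
    rw [← hroot]
    have h1 := (hroot (α k)).2 ⟨k, rfl⟩
    have h2 : aeval (s (α k)) fQ = s (aeval (α k) fQ) :=
      aeval_algHom_apply s.toAlgHom (α k) fQ
    rw [h2, h1, map_zero]
  choose π hπ using hperm
  have hπi : Function.Injective π := by
    intro a b hab
    apply hαi
    apply s.injective
    rw [hπ, hπ, hab]
  have hπne : ∃ k, π k ≠ k := by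
    by_contra hcon
    push Not at hcon
    apply hs1
    have h1 : s.toAlgHom = AlgHom.id ℚ N := by
      apply AlgHom.ext_of_adjoin_eq_top hsf.adjoin_rootSet'
      intro z hz
      obtain ⟨k, rfl⟩ := (hroot z).1 (by
        rw [mem_rootSet'] at hz
        exact hz.2)
      show s (α k) = α k
      rw [hπ, hcon]
    ext z
    exact congrArg (fun z => ((z : N) : AlgebraicClosure ℚ)) (DFunLike.congr_fun h1 z)
  have hcong : ∀ k, κ (αO (π k)) = κ (αO k) := by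
    intro k
    rw [← sub_eq_zero, ← map_sub, hκ]
    obtain ⟨z, hz, hz'⟩ := hs (αO k)
    have e : αO (π k) - αO k = z := by
      apply hinjO
      rw [map_sub]
      show ((αO (π k) : 𝓞 N) : N) - ((αO k : 𝓞 N) : N) = ((z : 𝓞 N) : N)
      rw [hz', hαO, hαO, hπ]
    rw [e]
    exact hz
  have hzero : ∀ k, κ (αO k) = 0 → k = i ∨ k = j := by
    intro k h
    by_contra h1
    push Not at h1
    exact hk0 k h1.1 h1.2 h
  have hπk : ∀ k, k ≠ i → k ≠ j → π k = k := by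
    intro k h1 h2
    have h3 : κ (αO (π k)) ≠ 0 := by
      rw [hcong]
      exact hk0 k h1 h2
    have h4 : π k ≠ i := fun h => h3 (by rw [h]; exact hi0)
    have h5 : π k ≠ j := fun h => h3 (by rw [h]; exact hj0)
    exact hkl (π k) k h4 h5 h1 h2 (hcong k)
  have hπi' : π i = i ∨ π i = j := hzero _ (by rw [hcong]; exact hi0)
  have hπj' : π j = i ∨ π j = j := hzero _ (by rw [hcong]; exact hj0)
  have hπij : π i = j ∧ π j = i := by
    rcases hπi' with h | h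
    · exfalso
      have h2 : π j = j := by
        rcases hπj' with h3 | h3
        · exact absurd (hπi (h3.trans h.symm)) hij.symm
        · exact h3
      obtain ⟨k, hk⟩ := hπne
      by_cases hki : k = i
      · exact hk (by rw [hki]; exact h)
      · by_cases hkj : k = j
        · exact hk (by rw [hkj]; exact h2)
        · exact hk (hπk k hki hkj)
    · refine ⟨h, ?_⟩
      rcases hπj' with h3 | h3
      · exact h3
      · exact absurd (hπi (h3.trans h.symm)) hij.symm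
  obtain ⟨hπi1, hπj⟩ := hπij
  -- the automorphism of the algebraic closure
  obtain ⟨σ, hσ⟩ : ∃ σ : AlgebraicClosure ℚ ≃ₐ[ℚ] AlgebraicClosure ℚ,
      ∀ z : N, σ (z : AlgebraicClosure ℚ) = ((s z : N) : AlgebraicClosure ℚ) :=
    ⟨s.liftNormal (AlgebraicClosure ℚ), fun z => s.liftNormal_commutes (AlgebraicClosure ℚ) z⟩
  -- embeddings
  have hθi : IsIntegral ℚ θ := Algebra.IsIntegral.isIntegral θ
  have hθQ : aeval θ fQ = 0 := by
    rw [hfQ, aeval_map_algebraMap]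
    exact hθ
  have hext : ∀ χ χ' : IntermediateField.adjoin ℚ {θ} →ₐ[ℚ] AlgebraicClosure ℚ,
      χ (IntermediateField.AdjoinSimple.gen ℚ θ) = χ' (IntermediateField.AdjoinSimple.gen ℚ θ) → χ = χ' := by
    intro χ χ' h
    refine (IntermediateField.adjoin.powerBasis hθi).algHom_ext ?_
    rw [IntermediateField.adjoin.powerBasis_gen]
    exact h
  have hgen : aeval (IntermediateField.AdjoinSimple.gen ℚ θ) fQ = 0 := by
    have h1 : algebraMap (IntermediateField.adjoin ℚ {θ}) (AlgebraicClosure ℚ)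
        (aeval (IntermediateField.AdjoinSimple.gen ℚ θ) fQ) = 0 := by
      rw [← aeval_algebraMap_apply, IntermediateField.AdjoinSimple.algebraMap_gen]
      exact hθQ
    exact (algebraMap (IntermediateField.adjoin ℚ {θ}) (AlgebraicClosure ℚ)).injective (by rw [h1, map_zero])
  have hval : ∀ χ : IntermediateField.adjoin ℚ {θ} →ₐ[ℚ] AlgebraicClosure ℚ,
      ∃ k, χ (IntermediateField.AdjoinSimple.gen ℚ θ) = ((α k : N) : AlgebraicClosure ℚ) := by
    intro χ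
    have h1 : aeval (χ (IntermediateField.AdjoinSimple.gen ℚ θ)) fQ = 0 := by
      rw [aeval_algHom_apply, hgen, map_zero]
    have h2 : fQ.map (algebraMap ℚ (AlgebraicClosure ℚ)) =
        ∏ k, (X - C ((α k : N) : AlgebraicClosure ℚ)) := by
      have e1 : algebraMap ℚ (AlgebraicClosure ℚ) =
          (algebraMap N (AlgebraicClosure ℚ)).comp (algebraMap ℚ N) := rfl
      rw [e1, ← Polynomial.map_map, hαp, Polynomial.map_prod]
      refine Finset.prod_congr rfl fun k _ => ?_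
      rw [Polynomial.map_sub, map_X, map_C]
      rfl
    rw [← eval_map_algebraMap, h2, eval_prod, Finset.prod_eq_zero_iff] at h1
    obtain ⟨k, -, hk⟩ := h1
    refine ⟨k, ?_⟩
    rw [eval_sub, eval_X, eval_C, sub_eq_zero] at hk
    exact hk
  have hemb : ∀ k, ∃ χ : IntermediateField.adjoin ℚ {θ} →ₐ[ℚ] AlgebraicClosure ℚ,
      χ (IntermediateField.AdjoinSimple.gen ℚ θ) = ((α k : N) : AlgebraicClosure ℚ) := by
    intro k
    have hal : IsAlgebraic ℚ θ := hθi.isAlgebraic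
    have hmp : minpoly ℚ θ = fQ :=
      (minpoly.eq_of_irreducible_of_monic hirr hθQ hmonF).symm
    have hev : aeval ((α k : N) : AlgebraicClosure ℚ) (minpoly ℚ θ) = 0 := by
      rw [hmp]
      have h1 := congrArg N.val ((hroot (α k)).2 ⟨k, rfl⟩)
      rw [map_zero, ← aeval_algHom_apply] at h1
      exact h1
    obtain ⟨τ, hτ⟩ := minpoly.exists_algEquiv_of_root' hal hev
    refine ⟨τ.toAlgHom.comp (IntermediateField.adjoin ℚ {θ}).val, ?_⟩
    show τ ((IntermediateField.AdjoinSimple.gen ℚ θ : IntermediateField.adjoin ℚ {θ}) : AlgebraicClosure ℚ) = _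
    rw [IntermediateField.AdjoinSimple.coe_gen]
    exact hτ
  obtain ⟨φ, hφ⟩ := hemb i
  obtain ⟨ψ, hψ⟩ := hemb j
  have hαne : ∀ k l, ((α k : N) : AlgebraicClosure ℚ) = ((α l : N) : AlgebraicClosure ℚ) → k = l :=
    fun k l h => hαi (Subtype.ext h)
  have hσα : ∀ k, σ ((α k : N) : AlgebraicClosure ℚ) = ((α (π k) : N) : AlgebraicClosure ℚ) := by
    intro k
    rw [hσ, hπ]
  refine ⟨σ, φ, ψ, ?_, ?_, ?_, ?_⟩
  · intro h
    apply hij
    apply hαne
    rw [← hφ, ← hψ, h]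
  · apply hext
    show σ (φ (IntermediateField.AdjoinSimple.gen ℚ θ)) = ψ (IntermediateField.AdjoinSimple.gen ℚ θ)
    rw [hφ, hψ, hσα, hπi1]
  · apply hext
    show σ (ψ (IntermediateField.AdjoinSimple.gen ℚ θ)) = φ (IntermediateField.AdjoinSimple.gen ℚ θ)
    rw [hφ, hψ, hσα, hπj]
  · intro χ h1 h2
    obtain ⟨k, hk⟩ := hval χ
    have hki : k ≠ i := by
      rintro rfl
      exact h1 (hext _ _ (by rw [hk, hφ]))
    have hkj : k ≠ j := by
      intro h
      rw [h] at hk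
      exact h2 (hext _ _ (by rw [hk, hψ]))
    apply hext
    show σ (χ (IntermediateField.AdjoinSimple.gen ℚ θ)) = χ (IntermediateField.AdjoinSimple.gen ℚ θ)
    rw [hk, hσα, hπk k hki hkj]

end Pool.Agent.D0H22.KC
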